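import Mathlib

/-!
# Unions of two critical graphs: the combinatorial core
-/

set_option autoImplicit false

namespace Pool.Agent.K3h51.UC

variable {V : Type}

/-- `c` is a proper colouring of the graph `G` minus the edge `x y`. -/
def Col (G : SimpleGraph V) {r : ℕ} (x y : V) (c : V → Fin r) : Prop :=
  ∀ a b, G.Adj a b → s(a, b) ≠ s(x, y) → c a ≠ c b

/-- The graph `G` is not `r`-colourable, and it becomes `r`-colourable if any edge is deleted. -/
structure EC (G : SimpleGraph V) (r : ℕ) : Prop where
  no : ¬ ∃ c : V → Fin r, ∀ a b, G.Adj a b → c a ≠ c b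
  ex : ∀ x y, G.Adj x y → ∃ c : V → Fin r, Col G x y c

/-- The union of `G` and `H` has no colouring with the pairs of `Fin r × Fin s`. -/
def NP (G H : SimpleGraph V) (r s : ℕ) : Prop :=
  ∀ (c : V → Fin r) (q : V → Fin s), ∃ a b, (G.Adj a b ∨ H.Adj a b) ∧ c a = c b ∧ q a = q b

/-- The situation that is to be shown to be impossible. -/
structure Pair (G H : SimpleGraph V) (r s : ℕ) : Prop where
  g : EC G r
  h : EC H s
  np : NP G H r s
  hr : 2 ≤ r
  hs : 2 ≤ s
  hrs : r + s + 1 ≤ r * s

variable {G H : SimpleGraph V} {r s : ℕ}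

theorem NP.symm (h : NP G H r s) : NP H G s r := by
  intro c q
  obtain ⟨a, b, hab, h1, h2⟩ := h q c
  exact ⟨a, b, hab.symm, h2, h1⟩

theorem Pair.symm (P : Pair G H r s) : Pair H G s r where
  g := P.h
  h := P.g
  np := P.np.symm
  hr := P.hs
  hs := P.hr
  hrs := by have := P.hrs; rw [Nat.mul_comm s r]; omega

theorem exists_perm (hr : 2 ≤ r) : ∃ σ : Equiv.Perm (Fin r), ∀ i, σ i ≠ i := by
  obtain ⟨n, rfl⟩ : ∃ n, r = n + 2 := ⟨r - 2, by omega⟩
  refine ⟨Equiv.addRight 1, fun i h => ?_⟩
  have h1 : i + 1 = i := h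
  have h2 : (1 : Fin (n + 2)) = 0 := by
    have := congrArg (fun t => t - i) h1
    simp at this
  have h3 := congrArg Fin.val h2
  simp at h3

theorem sym_cases {a b x y : V} (h : s(a, b) = s(x, y)) : (a = x ∧ b = y) ∨ (a = y ∧ b = x) :=
  Sym2.eq_iff.1 h

theorem EC.mono (hG : EC G r) {x y : V} {c : V → Fin r} (hc : Col G x y c) : c x = c y := by
  by_contra hne
  apply hG.no
  refine ⟨c, fun a b hab => ?_⟩
  by_cases h : s(a, b) = s(x, y)
  · rcases sym_cases h with ⟨rfl, rfl⟩ | ⟨rfl, rfl⟩
    · exact hne
    · exact fun h => hne h.symm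
  · exact hc a b hab h

/-- If the union is partitioned into `r` classes that are `s`-colourable then it has a colouring by
pairs. -/
theorem Pair.assemble (P : Pair G H r s) (c : V → Fin r)
    (hq : ∀ i : Fin r, ∃ q : V → Fin s, ∀ a b, (G.Adj a b ∨ H.Adj a b) → c a = i → c b = i →
      q a ≠ q b) : False := by
  choose q hq using hq
  obtain ⟨a, b, hab, h1, h2⟩ := P.np c (fun v => q (c v) v)
  have h3 : q (c a) a = q (c a) b := by
    have h4 : q (c a) a = q (c b) b := h2
    rw [← h1] at h4
    exact h4
  exact hq (c a) a b hab rfl h1.symm h3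

/-- No class of a colouring of `G` minus an edge contains all edges of `H`. -/
theorem Pair.d0 (P : Pair G H r s) {x y : V} {c : V → Fin r} (hc : Col G x y c)
    (i : Fin r) : ∃ a b, H.Adj a b ∧ ¬ (c a = i ∧ c b = i) := by
  classical
  by_contra hall
  push Not at hall
  have hall' : ∀ a b, H.Adj a b → c a = i ∧ c b = i := by
    intro a b hab
    exact hall a b hab
  have hr := P.hr
  have hs := P.hs
  have hrs := P.hrs
  -- an edge of `H`
  obtain ⟨u, v, huv⟩ : ∃ u v, H.Adj u v := by
    by_contra hno
    push Not at hno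
    exact P.h.no ⟨fun _ => ⟨0, by omega⟩, fun a b hab => absurd hab (hno a b)⟩
  obtain ⟨g, hg⟩ := P.h.ex u v huv
  let γ : V → ℕ := fun w => if w = u then s else (g w).val
  have hγ : ∀ w, γ w ≤ s := by
    intro w
    have := (g w).isLt
    simp only [γ]
    split_ifs <;> omega
  have hγ2 : ∀ a b, H.Adj a b → γ a ≠ γ b := by
    intro a b hab
    have ha := (g a).isLt
    have hb := (g b).isLt
    simp only [γ]
    split_ifs with h1 h2 h2
    · exact absurd (h1.trans h2.symm) hab.ne
    · omega
    · omega
    · intro h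
      refine hg a b hab ?_ (Fin.ext h)
      intro h3
      rcases sym_cases h3 with ⟨h4, _⟩ | ⟨_, h4⟩
      · exact h1 h4
      · exact h2 h4
  let l : Fin r := ⟨r - 1, by omega⟩
  let κ : V → ℕ := fun w => if w = x then r + s else if c w = i then (r - 1) + γ w
    else (Equiv.swap i l (c w)).val
  have hsw : ∀ w, c w ≠ i → (Equiv.swap i l (c w)).val < r - 1 := by
    intro w hw
    have h1 : Equiv.swap i l (c w) ≠ l := by
      intro h
      apply hw
      have h2 : Equiv.swap i l (c w) = Equiv.swap i l i := by rw [h, Equiv.swap_apply_left]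
      exact (Equiv.swap i l).injective h2
    have h2 := (Equiv.swap i l (c w)).isLt
    have h3 : (Equiv.swap i l (c w)).val ≠ r - 1 := fun h => h1 (Fin.ext h)
    omega
  have hκ : ∀ w, κ w < r * s := by
    intro w
    have h1 := hγ w
    by_cases hx : w = x
    · simp only [κ, if_pos hx]; omega
    · by_cases hi : c w = i
      · simp only [κ, if_neg hx, if_pos hi]; omega
      · have h2 := hsw w hi
        simp only [κ, if_neg hx, if_neg hi]; omega
  obtain ⟨a, b, hab, h1, h2⟩ := P.np (fun w => (finProdFinEquiv.symm (⟨κ w, hκ w⟩ : Fin (r * s))).1)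
    (fun w => (finProdFinEquiv.symm (⟨κ w, hκ w⟩ : Fin (r * s))).2)
  have h3 : (⟨κ a, hκ a⟩ : Fin (r * s)) = ⟨κ b, hκ b⟩ :=
    finProdFinEquiv.symm.injective (Prod.ext h1 h2)
  have h4 : κ a = κ b := congrArg Fin.val h3
  have hne : a ≠ b := by
    rcases hab with h | h
    · exact h.ne
    · exact h.ne
  have ha := hγ a
  have hb := hγ b
  by_cases hax : a = x
  · have hbx : b ≠ x := fun h => hne (hax.trans h.symm)
    by_cases hbi : c b = i
    · simp only [κ, if_pos hax, if_neg hbx, if_pos hbi] at h4; omega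
    · have h5 := hsw b hbi
      simp only [κ, if_pos hax, if_neg hbx, if_neg hbi] at h4; omega
  · by_cases hbx : b = x
    · by_cases hai : c a = i
      · simp only [κ, if_neg hax, if_pos hbx, if_pos hai] at h4; omega
      · have h5 := hsw a hai
        simp only [κ, if_neg hax, if_pos hbx, if_neg hai] at h4; omega
    · have hsne : s(a, b) ≠ s(x, y) := by
        intro h
        rcases sym_cases h with ⟨h5, _⟩ | ⟨_, h5⟩
        · exact hax h5
        · exact hbx h5
      by_cases hai : c a = i
      · by_cases hbi : c b = i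
        · simp only [κ, if_neg hax, if_neg hbx, if_pos hai, if_pos hbi] at h4
          rcases hab with h | h
          · exact hc a b h hsne (hai.trans hbi.symm)
          · exact hγ2 a b h (by omega)
        · have h5 := hsw b hbi
          simp only [κ, if_neg hax, if_neg hbx, if_pos hai, if_neg hbi] at h4; omega
      · by_cases hbi : c b = i
        · have h5 := hsw a hai
          simp only [κ, if_neg hax, if_neg hbx, if_neg hai, if_pos hbi] at h4; omega
        · simp only [κ, if_neg hax, if_neg hbx, if_neg hai, if_neg hbi] at h4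
          have h5 : c a = c b := (Equiv.swap i l).injective (Fin.ext h4)
          rcases hab with h | h
          · exact hc a b h hsne h5
          · exact hai (hall' a b h).1

/-- The classes of a colouring of `G` minus an edge are `s`-colourable in `H`. -/
theorem Pair.g0 (P : Pair G H r s) {x y : V} {c : V → Fin r} (hc : Col G x y c) (i : Fin r) :
    ∃ q : V → Fin s, ∀ a b, H.Adj a b → c a = i → c b = i → q a ≠ q b := by
  obtain ⟨u, v, huv, hn⟩ := P.d0 hc i
  obtain ⟨q, hq⟩ := P.h.ex u v huv
  refine ⟨q, fun a b hab ha hb => hq a b hab ?_⟩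
  intro h
  rcases sym_cases h with ⟨rfl, rfl⟩ | ⟨rfl, rfl⟩
  · exact hn ⟨ha, hb⟩
  · exact hn ⟨hb, ha⟩

theorem Pair.gp (P : Pair G H r s) {x y : V} {c : V → Fin r} (hc : Col G x y c) (q : V → Fin s)
    (hq : ∀ a b, H.Adj a b → c a = c x → c b = c x → q a ≠ q b) : q x = q y := by
  by_contra hne
  apply P.assemble c
  intro i
  by_cases hi : i = c x
  · subst hi
    refine ⟨q, fun a b hab ha hb => ?_⟩
    rcases hab with h | h
    · by_cases hs : s(a, b) = s(x, y)
      · rcases sym_cases hs with ⟨rfl, rfl⟩ | ⟨rfl, rfl⟩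
        · exact hne
        · exact fun h => hne h.symm
      · exact absurd (ha.trans hb.symm) (hc a b h hs)
    · exact hq a b h ha hb
  · obtain ⟨p, hp⟩ := P.g0 hc i
    refine ⟨p, fun a b hab ha hb => ?_⟩
    rcases hab with h | h
    · exfalso
      by_cases hs : s(a, b) = s(x, y)
      · rcases sym_cases hs with ⟨rfl, rfl⟩ | ⟨rfl, rfl⟩
        · exact hi ha.symm
        · exact hi hb.symm
      · exact hc a b h hs (ha.trans hb.symm)
    · exact hp a b h ha hb

/-- The main observation. -/
theorem Pair.star (P : Pair G H r s) {x y a b : V} {c : V → Fin r} {d : V → Fin s}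
    (hc : Col G x y c) (hd : Col H a b d) (hne : d x ≠ d y) : c a = c x ∧ c b = c x := by
  by_contra hn
  apply hne
  refine P.gp hc d fun u v huv hu hv => hd u v huv ?_
  intro h
  rcases sym_cases h with ⟨rfl, rfl⟩ | ⟨rfl, rfl⟩
  · exact hn ⟨hu, hv⟩
  · exact hn ⟨hv, hu⟩

theorem Pair.c1 (P : Pair G H r s) {a b z w : V} {d : V → Fin s} (hd : Col H a b d)
    (haz : G.Adj a z) (hzw : G.Adj z w) (hwa : w ≠ a) : d z = d w := by
  by_contra hne
  obtain ⟨c, hc⟩ := P.g.ex z w hzw
  have h1 := (P.star hc hd hne).1
  refine hc a z haz ?_ h1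
  intro h
  rcases sym_cases h with ⟨h2, _⟩ | ⟨h2, _⟩
  · exact haz.ne h2
  · exact hwa h2.symm

/-- A vertex that lies on an edge of `H` lies on an edge of `G`. -/
theorem Pair.iso (P : Pair G H r s) {y a : V} (hya : H.Adj y a) : ∃ w, G.Adj y w := by
  classical
  by_contra hno
  push Not at hno
  obtain ⟨d, hd⟩ := P.h.ex y a hya
  obtain ⟨u, v, huv, hn⟩ := P.symm.d0 hd (d y)
  obtain ⟨c, hc⟩ := P.g.ex u v huv
  obtain ⟨σ, hσ⟩ := exists_perm P.hr
  have hc' : Col G u v (Function.update c y (σ (c a))) := by
    intro p q hpq hne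
    have hp : p ≠ y := by
      rintro rfl
      exact hno q hpq
    have hq : q ≠ y := by
      rintro rfl
      exact hno p hpq.symm
    rw [Function.update_of_ne hp, Function.update_of_ne hq]
    exact hc p q hpq hne
  apply hn
  apply P.symm.star hd hc'
  rw [Function.update_self, Function.update_of_ne hya.ne']
  exact hσ _

/-- Adding a vertex to an independent set of `H`. -/
theorem Pair.lemA (P : Pair G H r s) (B : V → Prop) (hB : ∀ a b, H.Adj a b → B a → ¬ B b)
    (v : V) (hG : ∀ u, G.Adj v u → ¬ B u) (y : V) (hvy : H.Adj v y)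
    (hyB : ¬ B y) : ∃ q : V → Fin r, ∀ a b, (G.Adj a b ∨ H.Adj a b) → (B a ∨ a = v) →
      (B b ∨ b = v) → q a ≠ q b := by
  classical
  obtain ⟨w, hyw⟩ := P.iso hvy.symm
  obtain ⟨c, hc⟩ := P.g.ex y w hyw
  obtain ⟨σ, hσ⟩ := exists_perm P.hr
  have key : ∀ u, (G.Adj v u ∨ H.Adj v u) → B u → σ (c v) ≠ c u := by
    intro u hvu hu
    rcases hvu with h | h
    · exact absurd hu (hG u h)
    · have huy : u ≠ y := by
        rintro rfl
        exact hyB hu
      have h1 := P.symm.c1 hc hvy.symm h huy
      rw [← h1]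
      exact hσ _
  refine ⟨Function.update c v (σ (c v)), fun a b hab ha hb => ?_⟩
  have hne : a ≠ b := by
    rcases hab with h | h
    · exact h.ne
    · exact h.ne
  by_cases hav : a = v
  · subst hav
    have hba : b ≠ a := fun h => hne h.symm
    rw [Function.update_self, Function.update_of_ne hba]
    exact key b hab (hb.resolve_right hba)
  · by_cases hbv : b = v
    · subst hbv
      rw [Function.update_self, Function.update_of_ne hav]
      exact (key a (hab.imp (fun h => h.symm) (fun h => h.symm)) (ha.resolve_right hav)).symm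
    · rw [Function.update_of_ne hav, Function.update_of_ne hbv]
      have ha' := ha.resolve_right hav
      have hb' := hb.resolve_right hbv
      rcases hab with h | h
      · refine hc a b h ?_
        intro hs
        rcases sym_cases hs with ⟨h1, _⟩ | ⟨_, h1⟩
        · exact hyB (h1 ▸ ha')
        · exact hyB (h1 ▸ hb')
      · exact absurd hb' (hB a b h ha')

theorem exists_two (hs : 3 ≤ s) (i : Fin s) : ∃ j k : Fin s, j ≠ i ∧ k ≠ i ∧ j ≠ k := by
  have h0 : (0 : ℕ) < s := by omega
  have h1 : (1 : ℕ) < s := by omega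
  have h2 : (2 : ℕ) < s := by omega
  by_cases e0 : i = ⟨0, h0⟩
  · refine ⟨⟨1, h1⟩, ⟨2, h2⟩, ?_, ?_, ?_⟩ <;> simp [e0, Fin.ext_iff]
  · by_cases e1 : i = ⟨1, h1⟩
    · refine ⟨⟨0, h0⟩, ⟨2, h2⟩, ?_, ?_, ?_⟩ <;> simp [e1, Fin.ext_iff]
    · refine ⟨⟨0, h0⟩, ⟨1, h1⟩, fun h => e0 h.symm, fun h => e1 h.symm, ?_⟩
      simp [Fin.ext_iff]

theorem Pair.lemA2 (P : Pair G H r s) (hs : 3 ≤ s) {a b : V} {d : V → Fin s}
    (hd : Col H a b d) (v : V) (hN : ∀ u, G.Adj v u → d u = d a) :
    ∃ j, j ≠ d a ∧ ∃ q : V → Fin r, ∀ p u, (G.Adj p u ∨ H.Adj p u) → (d p = j ∨ p = v) →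
      (d u = j ∨ u = v) → q p ≠ q u := by
  obtain ⟨j, k, hj, hk, hjk⟩ := exists_two hs (d a)
  have hind : ∀ i, i ≠ d a → ∀ p u, H.Adj p u → d p = i → ¬ d u = i := by
    intro i hi p u hpu hp hu
    refine hd p u hpu ?_ (hp.trans hu.symm)
    intro h
    rcases sym_cases h with ⟨h1, _⟩ | ⟨_, h1⟩
    · exact hi (by rw [← hp, h1])
    · exact hi (by rw [← hu, h1])
  by_cases h : ∃ y, H.Adj v y ∧ d y ≠ j
  · obtain ⟨y, hvy, hy⟩ := h
    refine ⟨j, hj, ?_⟩
    refine P.lemA (fun u => d u = j) (hind j hj) v ?_ y hvy hy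
    intro u hu hu2
    exact hj (hu2.symm.trans (hN u hu))
  · push Not at h
    refine ⟨k, hk, ?_⟩
    obtain ⟨q, hq⟩ := P.symm.g0 hd k
    have hv : ∀ u, (G.Adj v u ∨ H.Adj v u) → d u ≠ k := by
      intro u hu
      rcases hu with h1 | h1
      · rw [hN u h1]; exact hk.symm
      · rw [h u h1]; exact hjk
    refine ⟨q, fun p u hpu hp hu => ?_⟩
    have hne : p ≠ u := by
      rcases hpu with h | h
      · exact h.ne
      · exact h.ne
    by_cases hpv : p = v
    · subst hpv
      have hup : u ≠ p := fun h => hne h.symm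
      exact absurd (hu.resolve_right hup) (hv u hpu)
    · by_cases huv : u = v
      · subst huv
        exact absurd (hp.resolve_right hpv) (hv p (hpu.imp (fun h => h.symm) (fun h => h.symm)))
      · have hp' := hp.resolve_right hpv
        have hu' := hu.resolve_right huv
        rcases hpu with h1 | h1
        · exact hq p u h1 hp' hu'
        · exact absurd hu' (hind k hk p u h1 hp')

/-- Moving a vertex out of its class. -/
theorem Pair.move (P : Pair G H r s) (hs : 3 ≤ s) {a b : V} {d : V → Fin s}
    (hd : Col H a b d) (v : V) (hN : ∀ u, G.Adj v u → d u = d a) (p : V → Fin r)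
    (hp : ∀ u w, (G.Adj u w ∨ H.Adj u w) → d u = d a → d w = d a → u ≠ v → w ≠ v →
      p u ≠ p w) : False := by
  classical
  obtain ⟨j, hj, q, hq⟩ := P.lemA2 hs hd v hN
  apply P.symm.assemble (Function.update d v j)
  intro i
  by_cases hij : i = j
  · subst hij
    refine ⟨q, fun u w huw hu hw => ?_⟩
    refine hq u w huw.symm ?_ ?_
    · by_cases h : u = v
      · exact Or.inr h
      · rw [Function.update_of_ne h] at hu
        exact Or.inl hu
    · by_cases h : w = v
      · exact Or.inr h
      · rw [Function.update_of_ne h] at hw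
        exact Or.inl hw
  · have hnv : ∀ u, Function.update d v j u = i → u ≠ v := by
      rintro u hu rfl
      rw [Function.update_self] at hu
      exact hij hu.symm
    by_cases hia : i = d a
    · subst hia
      refine ⟨p, fun u w huw hu hw => ?_⟩
      have h1 := hnv u hu
      have h2 := hnv w hw
      rw [Function.update_of_ne h1] at hu
      rw [Function.update_of_ne h2] at hw
      exact hp u w huw.symm hu hw h1 h2
    · obtain ⟨q', hq'⟩ := P.symm.g0 hd i
      refine ⟨q', fun u w huw hu hw => ?_⟩
      have h1 := hnv u hu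
      have h2 := hnv w hw
      rw [Function.update_of_ne h1] at hu
      rw [Function.update_of_ne h2] at hw
      rcases huw with h | h
      · exfalso
        refine hd u w h ?_ (hu.trans hw.symm)
        intro hs
        rcases sym_cases hs with ⟨h3, _⟩ | ⟨_, h3⟩
        · exact hia (by rw [← hu, h3])
        · exact hia (by rw [← hw, h3])
      · exact hq' u w h hu hw

theorem Pair.c7 (P : Pair G H r s) (hs : 3 ≤ s) {a e z y : V} {c : V → Fin r}
    (haz : G.Adj a z) (hne : e ≠ z) (hzy : H.Adj z y) (hc : Col G a e c) : c z = c y := by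
  by_contra hcz
  obtain ⟨d, hd⟩ := P.h.ex z y hzy
  obtain ⟨h1, h2⟩ := P.symm.star hd hc hcz
  refine P.move hs hd a ?_ c ?_
  · intro w haw
    by_cases hwz : w = z
    · rw [hwz]
    · rw [← h1]
      exact (P.c1 hd haz.symm haw hwz).symm
  · intro u w huw hu hw hua hwa
    rcases huw with h | h
    · refine hc u w h ?_
      intro hs
      rcases sym_cases hs with ⟨h3, _⟩ | ⟨_, h3⟩
      · exact hua h3
      · exact hwa h3
    · by_cases hs : s(u, w) = s(z, y)
      · rcases sym_cases hs with ⟨rfl, rfl⟩ | ⟨rfl, rfl⟩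
        · exact hcz
        · exact fun h => hcz h.symm
      · exact absurd (hu.trans hw.symm) (hd u w h hs)

theorem Pair.exists_out (P : Pair G H r s) (hs : 3 ≤ s) {a b : V} {d : V → Fin s}
    (hd : Col H a b d) : ∃ e, G.Adj a e ∧ d e ≠ d a := by
  by_contra hno
  push Not at hno
  obtain ⟨p, hp⟩ := P.symm.g0 hd (d a)
  refine P.move hs hd a hno p ?_
  intro u w huw hu hw hua hwa
  rcases huw with h | h
  · exact hp u w h hu hw
  · exfalso
    refine hd u w h ?_ (hu.trans hw.symm)
    intro hs
    rcases sym_cases hs with ⟨h3, _⟩ | ⟨_, h3⟩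
    · exact hua h3
    · exact hwa h3

/-- The situation is impossible if `s ≥ 3`. -/
theorem Pair.false (P : Pair G H r s) (hs : 3 ≤ s) : False := by
  classical
  obtain ⟨a, b, hab⟩ : ∃ u v, H.Adj u v := by
    by_contra hno
    push Not at hno
    exact P.h.no ⟨fun _ => ⟨0, by omega⟩, fun a b hab => absurd hab (hno a b)⟩
  obtain ⟨d, hd⟩ := P.h.ex a b hab
  obtain ⟨e, hae, hde⟩ := P.exists_out hs hd
  obtain ⟨c, hc⟩ := P.g.ex a e hae
  obtain ⟨j, _, hj, _, _⟩ := exists_two hs (d a)
  obtain ⟨σ, hσ⟩ := exists_perm P.hr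
  have hdab : d a = d b := P.h.mono hd
  -- the neighbours in the class of `a`
  let Z : V → Prop := fun z => G.Adj a z ∧ d z = d a
  have haZ : ¬ Z a := fun h => G.loopless.irrefl a h.1
  have hZe : ∀ z, Z z → z ≠ e := by
    rintro z hz rfl
    exact hde hz.2
  let d' : V → Fin s := fun v => if Z v then j else d v
  let q : V → Fin r := fun v => if Z v then σ (c v) else if v = a then σ (c b) else c v
  have key : ∀ u v, (G.Adj u v ∨ H.Adj u v) → (Z u ∨ ¬ Z v) → d' u = d' v → q u ≠ q v := by
    intro u v huv hZ heq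
    by_cases hu : Z u
    · have hua : u ≠ a := by
        rintro rfl
        exact haZ hu
      by_cases hv : Z v
      · -- both in `Z`
        have hva : v ≠ a := by
          rintro rfl
          exact haZ hv
        simp only [q, if_pos hu, if_pos hv]
        intro h
        have h1 : c u = c v := σ.injective h
        rcases huv with h2 | h2
        · refine hc u v h2 ?_ h1
          intro h3
          rcases sym_cases h3 with ⟨h4, _⟩ | ⟨_, h4⟩
          · exact hua h4
          · exact hva h4
        · refine hd u v h2 ?_ (hu.2.trans hv.2.symm)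
          intro h3
          rcases sym_cases h3 with ⟨h4, _⟩ | ⟨_, h4⟩
          · exact hua h4
          · exact hva h4
      · -- `u ∈ Z`, `v ∉ Z`
        simp only [d', if_pos hu, if_neg hv] at heq
        have hva : v ≠ a := by
          rintro rfl
          exact hj heq
        simp only [q, if_pos hu, if_neg hv, if_neg hva]
        rcases huv with h2 | h2
        · exfalso
          have h3 := P.c1 hd hu.1 h2 hva
          exact hj (heq.trans (h3.symm.trans hu.2))
        · have h3 := P.c7 hs hu.1 (hZe u hu).symm h2 hc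
          rw [← h3]
          exact hσ _
    · have hv : ¬ Z v := by
        rcases hZ with h | h
        · exact absurd h hu
        · exact h
      simp only [d', if_neg hu, if_neg hv] at heq
      have hne : u ≠ v := by
        rcases huv with h | h
        · exact h.ne
        · exact h.ne
      rcases huv with h2 | h2
      · -- an edge of `G`
        have hua : u ≠ a := by
          rintro rfl
          exact hv ⟨h2, heq.symm⟩
        have hva : v ≠ a := by
          rintro rfl
          exact hu ⟨h2.symm, heq⟩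
        simp only [q, if_neg hu, if_neg hv, if_neg hua, if_neg hva]
        refine hc u v h2 ?_
        intro h3
        rcases sym_cases h3 with ⟨h4, _⟩ | ⟨_, h4⟩
        · exact hua h4
        · exact hva h4
      · -- an edge of `H`
        by_cases h3 : s(u, v) = s(a, b)
        · rcases sym_cases h3 with ⟨h4, h5⟩ | ⟨h4, h5⟩
          · have hva : v ≠ a := fun h => hne (h4.trans h.symm)
            simp only [q, if_neg hu, if_neg hv, if_pos h4, if_neg hva]
            rw [h5]
            exact hσ _
          · have hua : u ≠ a := fun h => hne (h.trans h5.symm)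
            simp only [q, if_neg hu, if_neg hv, if_pos h5, if_neg hua]
            rw [h4]
            exact (hσ _).symm
        · exact absurd heq (hd u v h2 h3)
  obtain ⟨u, v, huv, h1, h2⟩ := P.np.symm d' q
  by_cases hu : Z u
  · exact key u v huv.symm (Or.inl hu) h1 h2
  · by_cases hv : Z v
    · exact key v u (huv.symm.imp (fun h => h.symm) (fun h => h.symm)) (Or.inl hv) h1.symm h2.symm
    · exact key u v huv.symm (Or.inr hv) h1 h2

end Pool.Agent.K3h51.UC
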